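import Pool.Agent.H620R2.Gauge.A1
import Pool.Agent.TH678.GC.Defs
import Mathlib

/-! Pieces PUP and UPNP of project GU: the combinatorial core. -/

set_option autoImplicit false

namespace Pool.Agent.W2helper71.GU

open Pool.Agent.NPC Pool.Agent.H620R2.Gauge Pool.Agent.TH678.GC Filter

/-- the questions asked during the computation -/
def qs (M : Alg) (A : Oracle) (x : List Bool) : ℕ → List Bool → List (List Bool)
  | 0, _ => []
  | n + 1, a =>
    match M.D (pairBits x a) with
    | [] => []
    | true :: _ => []
    | false :: q => q :: qs M A x n (a ++ [A q])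

theorem qs_length (M : Alg) (A : Oracle) (x : List Bool) : ∀ (n : ℕ) (a : List Bool),
    (qs M A x n a).length ≤ n := by
  intro n
  induction n with
  | zero => intro a; simp [qs]
  | succ n ih =>
    intro a
    rcases hq : M.D (pairBits x a) with _ | ⟨c, q⟩
    · simp [qs, hq]
    · cases c with
      | true => simp [qs, hq]
      | false =>
        simp only [qs, hq, List.length_cons]
        have := ih (a ++ [A q])
        omega

theorem qs_congr (M : Alg) (A A' : Oracle) (x : List Bool) : ∀ (n : ℕ) (a : List Bool),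
    (∀ q ∈ qs M A x n a, A' q = A q) → qs M A' x n a = qs M A x n a ∧ M.run A' x n a = M.run A x n a := by
  intro n
  induction n with
  | zero => intro a _; simp [qs, Alg.run]
  | succ n ih =>
    intro a h
    rcases hq : M.D (pairBits x a) with _ | ⟨c, q⟩
    · simp [qs, hq, Alg.run]
    · cases c with
      | true => simp [qs, hq, Alg.run]
      | false =>
        simp only [qs, hq, List.mem_cons, forall_eq_or_imp] at h
        simp only [qs, hq, Alg.run]
        rw [h.1]
        obtain ⟨h1, h2⟩ := ih (a ++ [A q]) h.2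
        rw [h1, h2]
        exact ⟨rfl, rfl⟩

/-- the set of the questions asked on input `x` -/
def QS (M : Alg) (A : Oracle) (x : List Bool) : Finset (List Bool) :=
  (qs M A x (M.p.eval x.length) []).toFinset

theorem QS_card (M : Alg) (A : Oracle) (x : List Bool) : (QS M A x).card ≤ M.p.eval x.length :=
  (List.toFinset_card_le _).trans (qs_length M A x _ _)

theorem QS_congr (M : Alg) (A A' : Oracle) (x : List Bool) (h : ∀ q ∈ QS M A x, A' q = A q) :
    QS M A' x = QS M A x ∧ M.out A' x = M.out A x := by
  obtain ⟨h1, h2⟩ := qs_congr M A A' x (M.p.eval x.length) [] fun q hq => h q (by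
    rw [QS, List.mem_toFinset]; exact hq)
  exact ⟨by rw [QS, QS, h1], h2⟩

/-- a polynomial is eventually less than `2 ^ n` -/
theorem poly_lt (P : Polynomial ℕ) (ℓ : ℕ) : ∃ n : ℕ, ℓ < n ∧ P.eval n < 2 ^ n := by
  have h1 : ∀ n : ℕ, 1 ≤ n → P.eval n ≤ P.eval 1 * n ^ P.natDegree := by
    intro n hn
    rw [Polynomial.eval_eq_sum_range, Polynomial.eval_eq_sum_range, Finset.sum_mul]
    refine Finset.sum_le_sum fun i hi => ?_
    rw [one_pow, mul_one]
    gcongr
    rw [Finset.mem_range] at hi
    omega
  have h2 := (isLittleO_pow_const_const_pow_of_one_lt (R := ℝ) P.natDegree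
    (one_lt_two : (1 : ℝ) < 2)).bound
    (show (0 : ℝ) < 1 / ((P.eval 1 : ℕ) + 1 : ℝ) by positivity)
  obtain ⟨n, hn1, hn2⟩ := (h2.and (eventually_ge_atTop (ℓ + 1))).exists
  refine ⟨n, by omega, ?_⟩
  have h3 := h1 n (by omega)
  rw [Real.norm_of_nonneg (by positivity), Real.norm_of_nonneg (by positivity), one_div,
    inv_mul_eq_div, le_div_iff₀ (by positivity)] at hn1
  have h4 : n ^ P.natDegree * (P.eval 1 + 1) ≤ 2 ^ n := by exact_mod_cast hn1
  have h5 : 0 < n ^ P.natDegree := pow_pos (by omega) _
  nlinarith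

/-- `2 ^ n` strings of length `n` -/
theorem exists_unasked (Q : Finset (List Bool)) (f : List Bool → List Bool)
    (hf : Function.Injective f) {n : ℕ} (h : Q.card < 2 ^ n) :
    ∃ w : List Bool, w.length = n ∧ f w ∉ Q := by
  classical
  set F : (Fin n → Bool) → List Bool := fun v => f (List.ofFn v) with hF
  have hinj : Function.Injective F := hf.comp List.ofFn_injective
  have hc : Q.card < (Finset.univ.image F).card := by
    rw [Finset.card_image_of_injective _ hinj, Finset.card_univ, Fintype.card_fun, Fintype.card_bool,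
      Fintype.card_fin]
    exact h
  obtain ⟨y, hy1, hy2⟩ := Finset.exists_mem_notMem_of_card_lt_card hc
  obtain ⟨v, -, rfl⟩ := Finset.mem_image.1 hy1
  exact ⟨List.ofFn v, List.length_ofFn, hy2⟩

/-- double counting: a relation such that of each two different elements one is related to the other has an
element with many related elements -/
theorem tournament {α : Type*} [Fintype α] [DecidableEq α] (R : α → Finset α) (q : ℕ)
    (hR : ∀ a, (R a).card ≤ q) (h : ∀ a b, a ≠ b → b ∈ R a ∨ a ∈ R b) : Fintype.card α ≤ 2 * q + 1 := by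
  classical
  rcases Nat.eq_zero_or_pos (Fintype.card α) with h0 | hpos
  · omega
  set P : Finset (α × α) := Finset.univ.filter fun x => x.2 ∈ R x.1 with hP
  set P' : Finset (α × α) := Finset.univ.filter fun x => x.1 ∈ R x.2 with hP'
  have e0 : P = Finset.univ.biUnion fun a => (R a).image fun b => (a, b) := by
    ext ⟨a, b⟩
    simp [hP]
  have e1 : P.card ≤ Fintype.card α * q := by
    rw [e0]
    refine Finset.card_biUnion_le.trans ?_
    refine (Finset.sum_le_sum fun a _ => (Finset.card_image_le.trans (hR a))).trans ?_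
    simp
  have e2 : P'.card = P.card := by
    refine Finset.card_bij (fun x _ => (x.2, x.1)) ?_ ?_ ?_
    · intro x hx
      simpa [hP, hP'] using hx
    · intro x _ y _ hxy
      simp only [Prod.mk.injEq] at hxy
      exact Prod.ext hxy.2 hxy.1
    · intro x hx
      exact ⟨(x.2, x.1), by simpa [hP, hP'] using hx, rfl⟩
  have e3 : (Finset.univ : Finset α).offDiag ⊆ P ∪ P' := by
    intro x hx
    rw [Finset.mem_offDiag] at hx
    rcases h x.1 x.2 hx.2.2 with h1 | h1
    · exact Finset.mem_union_left _ (Finset.mem_filter.2 ⟨Finset.mem_univ _, h1⟩)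
    · exact Finset.mem_union_right _ (Finset.mem_filter.2 ⟨Finset.mem_univ _, h1⟩)
  have e4 := (Finset.card_le_card e3).trans (Finset.card_union_le _ _)
  rw [Finset.offDiag_card, Finset.card_univ, e2] at e4
  have e5 : Fintype.card α * Fintype.card α ≤ Fintype.card α * (2 * q + 1) := by
    have e6 : Fintype.card α * (2 * q + 1) = 2 * (Fintype.card α * q) + Fintype.card α := by ring
    rw [e6]
    omega
  exact Nat.le_of_mul_le_mul_left e5 hpos

/-- the oracle `B` cut off above length `ℓ`, with the strings of the finset `S` added -/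
def mod (B : Oracle) (ℓ : ℕ) (S : List (List Bool)) : Oracle := fun u =>
  (decide (u.length ≤ ℓ) && B u) || decide (u ∈ S)

theorem mod_le (B : Oracle) (ℓ : ℕ) (S : List (List Bool)) (hS : ∀ w ∈ S, ℓ < w.length) (u : List Bool)
    (hu : u.length ≤ ℓ) : mod B ℓ S u = B u := by
  have h1 : u ∉ S := fun h => by
    have := hS u h
    omega
  simp [mod, hu, h1]

theorem mod_gt (B : Oracle) (ℓ : ℕ) (S : List (List Bool)) (u : List Bool)
    (hu : ℓ < u.length) : mod B ℓ S u = true ↔ u ∈ S := by
  simp [mod, Nat.not_le.2 hu]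

/-- changing one string -/
theorem mod_congr (B : Oracle) (ℓ : ℕ) (S S' : List (List Bool)) (u : List Bool) (h : u ∈ S ↔ u ∈ S') :
    mod B ℓ S u = mod B ℓ S' u := by
  simp [mod, h]

theorem length_pb (x w : List Bool) : (pairBits x w).length = 2 * x.length + 1 + w.length :=
  length_pairBits x w

/-- Piece PUP -/
theorem pup (A E : Oracle) (M : Alg) (B₀ : Oracle) (ℓ : ℕ)
    (hB₀ : ∀ w w' : List Bool, w.length = w'.length → B₀ w = true → B₀ w' = true → w = w') :
    ∃ B : Oracle, (∀ w w' : List Bool, w.length = w'.length → B w = true → B w' = true → w = w') ∧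
      (∀ u : List Bool, u.length ≤ ℓ → B u = B₀ u) ∧
      ∃ n : ℕ, ¬ ((∃ w : List Bool, w.length = n ∧ B w = true) ↔
        (M.out (join A (join B E)) (List.replicate n true)).getD [] = [true]) := by
  classical
  obtain ⟨n, hn, hp⟩ := poly_lt M.p ℓ
  set x := List.replicate n true with hx
  have hxl : x.length = n := by rw [hx, List.length_replicate]
  set B₁ : Oracle := mod B₀ ℓ [] with hB₁
  have hlow : ∀ (S : List (List Bool)), (∀ w ∈ S, w.length = n) → ∀ u : List Bool, u.length ≤ ℓ →
      mod B₀ ℓ S u = B₀ u := fun S hS u hu => mod_le B₀ ℓ S (fun w hw => by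
    rw [hS w hw]; exact hn) u hu
  have huniq : ∀ (S : List (List Bool)), (∀ w ∈ S, w.length = n) → (∀ w ∈ S, ∀ w' ∈ S, w = w') →
      ∀ w w' : List Bool, w.length = w'.length → mod B₀ ℓ S w = true → mod B₀ ℓ S w' = true → w = w' := by
    intro S hS hS' w w' hww h1 h2
    rcases Nat.lt_or_ge ℓ w.length with h3 | h3
    · rw [mod_gt B₀ ℓ S w h3] at h1
      rw [mod_gt B₀ ℓ S w' (by omega)] at h2
      exact hS' w h1 w' h2
    · rw [hlow S hS w h3] at h1
      rw [hlow S hS w' (by omega)] at h2
      exact hB₀ w w' hww h1 h2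
  by_cases hacc : (M.out (join A (join B₁ E)) x).getD [] = [true]
  · refine ⟨B₁, huniq [] (by simp) (by simp), hlow [] (by simp), n, fun hiff => ?_⟩
    obtain ⟨w, hw1, hw2⟩ := hiff.2 hacc
    rw [hB₁, mod_gt B₀ ℓ [] w (by omega)] at hw2
    simp at hw2
  · obtain ⟨w, hw1, hw2⟩ := exists_unasked (QS M (join A (join B₁ E)) x) (fun w => true :: false :: w)
      (fun a b h => by simpa using h) (n := n) (lt_of_le_of_lt (QS_card _ _ _) (by rw [hxl]; exact hp))
    set B : Oracle := mod B₀ ℓ [w] with hB
    refine ⟨B, huniq [w] (by simpa using hw1) (by simp), hlow [w] (by simpa using hw1), n, fun hiff => ?_⟩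
    have h1 : (M.out (join A (join B E)) x).getD [] = [true] := by
      refine hiff.1 ⟨w, hw1, ?_⟩
      rw [hB, mod_gt B₀ ℓ [w] w (by omega)]
      simp
    have h2 : ∀ q ∈ QS M (join A (join B₁ E)) x, join A (join B E) q = join A (join B₁ E) q := by
      intro q hq
      rcases q with _ | ⟨c, q⟩
      · rfl
      cases c with
      | false => rfl
      | true =>
        rcases q with _ | ⟨c, q⟩
        · rfl
        cases c with
        | true => rfl
        | false =>
          change B q = B₁ q
          rw [hB, hB₁]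
          apply mod_congr
          have : q ≠ w := fun h => hw2 (h ▸ hq)
          simp [this]
    rw [(QS_congr M _ _ x h2).2] at h1
    exact hacc h1

/-- Piece UPNP -/
theorem upnp (E : Oracle) (M : Alg) (p : Polynomial ℕ) (A₀ : Oracle) (ℓ : ℕ) :
    ∃ A : Oracle, (∀ u : List Bool, u.length ≤ ℓ → A u = A₀ u) ∧
    ((∃ x w w' : List Bool, w.length ≤ p.eval x.length ∧ w'.length ≤ p.eval x.length ∧ w ≠ w' ∧
      (M.out (join A E) (pairBits w x)).getD [] = [true] ∧
      (M.out (join A E) (pairBits w' x)).getD [] = [true]) ∨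
    ∃ n : ℕ, ¬ ((∃ w : List Bool, w.length = n ∧ A w = true) ↔
      ∃ w : List Bool, w.length ≤ p.eval n ∧
        (M.out (join A E) (pairBits w (List.replicate n true))).getD [] = [true])) := by
  classical
  by_contra hcon
  push Not at hcon
  obtain ⟨n, hn, hp⟩ := poly_lt (2 * (M.p.comp (2 * p + 1 + Polynomial.X)) + 1) ℓ
  set q : ℕ := M.p.eval (2 * p.eval n + 1 + n) with hq
  have hp' : 2 * q + 1 < 2 ^ n := by
    simpa [hq, Polynomial.eval_comp] using hp
  set x := List.replicate n true with hx
  have hxl : x.length = n := by rw [hx, List.length_replicate]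
  set O : List (List Bool) → Oracle := fun S => join (mod A₀ ℓ S) E with hO
  have hlow : ∀ (S : List (List Bool)), (∀ w ∈ S, w.length = n) → ∀ u : List Bool, u.length ≤ ℓ →
      mod A₀ ℓ S u = A₀ u := fun S hS u hu => mod_le A₀ ℓ S (fun w hw => by
    rw [hS w hw]; exact hn) u hu
  -- uniqueness and correctness
  have huni : ∀ S : List (List Bool), (∀ w ∈ S, w.length = n) → ∀ c c' : List Bool,
      c.length ≤ p.eval n → c'.length ≤ p.eval n → (M.out (O S) (pairBits c x)).getD [] = [true] →
      (M.out (O S) (pairBits c' x)).getD [] = [true] → c = c' := by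
    intro S hS c c' hc hc' h1 h2
    by_contra hne
    exact (hcon (mod A₀ ℓ S) (hlow S hS)).1 x c c' (by rw [hxl]; exact hc) (by rw [hxl]; exact hc') hne h1 h2
  have hcor : ∀ S : List (List Bool), (∀ w ∈ S, w.length = n) →
      ((∃ w : List Bool, w.length = n ∧ mod A₀ ℓ S w = true) ↔
        ∃ c : List Bool, c.length ≤ p.eval n ∧ (M.out (O S) (pairBits c x)).getD [] = [true]) := by
    intro S hS
    exact (hcon (mod A₀ ℓ S) (hlow S hS)).2 n
  have hempty : ∀ c : List Bool, c.length ≤ p.eval n → ¬ (M.out (O []) (pairBits c x)).getD [] = [true] := by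
    intro c hc h
    obtain ⟨w, hw1, hw2⟩ := (hcor [] (by simp)).2 ⟨c, hc, h⟩
    rw [mod_gt A₀ ℓ [] w (by omega)] at hw2
    simp at hw2
  -- the witnesses
  have hwit : ∀ v : Fin n → Bool, ∃ c : List Bool, c.length ≤ p.eval n ∧
      (M.out (O [List.ofFn v]) (pairBits c x)).getD [] = [true] := by
    intro v
    refine (hcor [List.ofFn v] (by simp)).1 ⟨List.ofFn v, List.length_ofFn, ?_⟩
    rw [mod_gt A₀ ℓ _ _ (by rw [List.length_ofFn]; exact hn)]
    simp
  choose c hc1 hc2 using hwit
  set R : (Fin n → Bool) → Finset (Fin n → Bool) := fun v =>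
    Finset.univ.filter fun v' => false :: List.ofFn v' ∈ QS M (O [List.ofFn v]) (pairBits (c v) x) with hR
  have hRc : ∀ v, (R v).card ≤ q := by
    intro v
    have h1 : (R v).card ≤ (QS M (O [List.ofFn v]) (pairBits (c v) x)).card := by
      refine Finset.card_le_card_of_injOn (fun v' => false :: List.ofFn v') ?_ ?_
      · intro v' hv'
        exact (Finset.mem_filter.1 hv').2
      · intro a _ b _ hab
        exact List.ofFn_injective (List.cons.inj hab).2
    refine h1.trans ((QS_card _ _ _).trans ?_)
    rw [hq, length_pb, hxl]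
    apply eval_mono
    have := hc1 v
    omega
  have hfin := tournament R q hRc (by
    intro v v' hne
    by_contra hno
    push Not at hno
    obtain ⟨h1, h2⟩ := hno
    have h1' : false :: List.ofFn v' ∉ QS M (O [List.ofFn v]) (pairBits (c v) x) := by
      intro h
      exact h1 (Finset.mem_filter.2 ⟨Finset.mem_univ _, h⟩)
    have h2' : false :: List.ofFn v ∉ QS M (O [List.ofFn v']) (pairBits (c v') x) := by
      intro h
      exact h2 (Finset.mem_filter.2 ⟨Finset.mem_univ _, h⟩)
    have hag : ∀ (S S' : List (List Bool)) (Q : Finset (List Bool)),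
        (∀ u : List Bool, false :: u ∈ Q → (u ∈ S ↔ u ∈ S')) → ∀ r ∈ Q, O S r = O S' r := by
      intro S S' Q h r hr
      rcases r with _ | ⟨b, r⟩
      · rfl
      cases b with
      | true => rfl
      | false =>
        change mod A₀ ℓ S r = mod A₀ ℓ S' r
        exact mod_congr A₀ ℓ S S' r (h r hr)
    obtain ⟨a1, a2⟩ := QS_congr M (O [List.ofFn v]) (O [List.ofFn v, List.ofFn v']) (pairBits (c v) x)
      (hag _ _ _ fun u hu => by
        have : u ≠ List.ofFn v' := fun h => h1' (h ▸ hu)
        simp [this])
    obtain ⟨b1, b2⟩ := QS_congr M (O [List.ofFn v']) (O [List.ofFn v, List.ofFn v']) (pairBits (c v') x)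
      (hag _ _ _ fun u hu => by
        have : u ≠ List.ofFn v := fun h => h2' (h ▸ hu)
        simp [this])
    have hS2 : ∀ w ∈ [List.ofFn v, List.ofFn v'], w.length = n := by
      intro w hw
      simp only [List.mem_cons, List.not_mem_nil, or_false] at hw
      rcases hw with rfl | rfl <;> exact List.length_ofFn
    have hcc : c v = c v' := huni [List.ofFn v, List.ofFn v'] hS2 _ _ (hc1 v) (hc1 v')
      (by rw [a2]; exact hc2 v) (by rw [b2]; exact hc2 v')
    -- the computation with the witness `c v` asks neither of the two strings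
    have h3 : false :: List.ofFn v ∉ QS M (O [List.ofFn v]) (pairBits (c v) x) := by
      rw [← a1, hcc, b1]
      exact h2'
    obtain ⟨-, d2⟩ := QS_congr M (O [List.ofFn v]) (O []) (pairBits (c v) x)
      (hag _ _ _ fun u hu => by
        have : u ≠ List.ofFn v := fun h => h3 (h ▸ hu)
        simp [this])
    refine hempty (c v) (hc1 v) ?_
    rw [d2]
    exact hc2 v)
  rw [Fintype.card_fun, Fintype.card_bool, Fintype.card_fin] at hfin
  omega

end Pool.Agent.W2helper71.GU
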