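import Pool.Agent.W2helper58.GU.Stm
import Pool.Agent.W2helper71.GU.Core

/-! Pieces PUP and UPNP of project GU. -/

set_option autoImplicit false

namespace Pool.Agent.W2helper71.GU

open Pool.Agent.NPC Pool.Agent.H620R2.Gauge Pool.Agent.TH678.GC Pool.Agent.W2helper58.GU

theorem mem_tally (B : Oracle) (n : ℕ) : List.replicate n true ∈ tally B ↔
    ∃ w : List Bool, w.length = n ∧ B w = true := by
  simp [tally]

theorem s_pup : S_PUP := by
  intro A E M B₀ ℓ hB₀
  obtain ⟨B, h1, h2, n, h3⟩ := pup A E M B₀ ℓ hB₀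
  refine ⟨B, h1, h2, List.replicate n true, ?_⟩
  rw [mem_tally]
  exact h3

theorem s_upnp : S_UPNP := by
  intro E M p A₀ ℓ
  obtain ⟨A, h1, h2⟩ := upnp E M p A₀ ℓ
  refine ⟨A, h1, ?_⟩
  rcases h2 with h2 | ⟨n, h2⟩
  · exact Or.inl h2
  · refine Or.inr ⟨List.replicate n true, ?_⟩
    rw [mem_tally, List.length_replicate]
    exact h2

end Pool.Agent.W2helper71.GU
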